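import Mathlib

/-!
The proposed Kneser-type extension of Pollard's theorem fails for every `t ≥ 3`.

Let `m = t - 1 ≥ 2`, `G = ℤ/3 × ℤ/m` and `A = B = {0, 1} × ℤ/m`. The elements `(c, h)` have
`m, 2m, m` representations for `c = 0, 1, 2`. So `A +_t B = {1} × ℤ/m`, with stabilizer
`H = {0} × ℤ/m` and `u = 1`, and
`∑ |A +_i B| = 3m² + m < 3m² + 2m - 1 = t |A| + t |B| - t²`. As `u = 1`, `A' = A` and `B' = B`,
but `A + B = G` has the stabilizer `G ≠ H`.
-/

set_option autoImplicit false

namespace Pool.Agent.Results.MP_cd64ef_nt.StabilizerFails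

/-- The number of representations `g = a + b` with `a ∈ A`, `b ∈ B`. -/
def r {G : Type} [AddCommGroup G] [DecidableEq G] (A B : Finset G) (g : G) : ℕ :=
  ((A ×ˢ B).filter fun p => p.1 + p.2 = g).card

/-- The `t`-popular sumset `A +_t B`. -/
def popular {G : Type} [AddCommGroup G] [DecidableEq G] (t : ℕ) (A B : Finset G) : Set G :=
  {g | t ≤ r A B g}

/-- The sumset `A + B`. -/
def sumset {G : Type} [AddCommGroup G] (A B : Finset G) : Set G :=
  {g | ∃ a ∈ A, ∃ b ∈ B, a + b = g}

/-- The stabilizer `{e : e + X = X}`. -/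
def stab {G : Type} [AddCommGroup G] (X : Set G) : Set G :=
  {e | (fun x => e + x) '' X = X}

/-- There are `A' ⊆ A` and `B' ⊆ B` with the three listed properties (`H` is the stabilizer of
`A +_t B`). -/
def GoodPair {G : Type} [AddCommGroup G] [DecidableEq G] (u : ℕ) (A B : Finset G)
    (H : Set G) : Prop :=
  ∃ A' ⊆ A, ∃ B' ⊆ B, (A \ A').card + (B \ B').card < u ∧
    sumset A' B' = popular u A' B' ∧ popular u A' B' = popular u A B ∧
    stab (sumset A' B') = H ∧ stab (popular u A' B') = H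

/-- The assertion of the question for the integer `t` and all abelian groups. -/
def Holds (t : ℕ) : Prop :=
  ∀ (G : Type) [AddCommGroup G] [DecidableEq G] (A B : Finset G),
    t ≤ A.card → t ≤ B.card →
    (∑ i ∈ Finset.Icc 1 t, ((popular i A B).ncard : ℤ)) < t * A.card + t * B.card - t ^ 2 →
    ∀ s u : ℕ, t = s * (stab (popular t A B)).ncard + u → 1 ≤ u →
      u ≤ (stab (popular t A B)).ncard →
      GoodPair u A B (stab (popular t A B)) ∧
      (t : ℤ) * A.card + t * B.card - t ^ 2 - u * ((stab (popular t A B)).ncard - u) ≤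
        ∑ i ∈ Finset.Icc 1 t, ((popular i A B).ncard : ℤ)

section

variable (m : ℕ) [NeZero m]

/-- the sets `A = B` -/
def S : Finset (ZMod 3 × ZMod m) := ({0, 1} : Finset (ZMod 3)) ×ˢ (Finset.univ : Finset (ZMod m))

/-- the number of representations in `ℤ/3` -/
def N (c : ZMod 3) : ℕ :=
  ((({0, 1} : Finset (ZMod 3)) ×ˢ ({0, 1} : Finset (ZMod 3))).filter fun p => p.1 + p.2 = c).card

lemma r_eq (g : ZMod 3 × ZMod m) : r (S m) (S m) g = N g.1 * m := by
  have h1 : ((S m ×ˢ S m).filter fun p => p.1 + p.2 = g) =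
      (((({0, 1} : Finset (ZMod 3)) ×ˢ ({0, 1} : Finset (ZMod 3))).filter
        fun p => p.1 + p.2 = g.1) ×ˢ (Finset.univ : Finset (ZMod m))).map
        ⟨fun q => ((q.1.1, q.2), (q.1.2, g.2 - q.2)), by
          intro a b hab
          simp only [Prod.mk.injEq] at hab
          ext <;> simp_all⟩ := by
    ext p
    simp only [S, Finset.mem_filter, Finset.mem_product, Finset.mem_univ, and_true,
      Finset.mem_map, Function.Embedding.coeFn_mk, Prod.exists]
    constructor
    · rintro ⟨⟨h2, h3⟩, h4⟩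
      refine ⟨p.1.1, p.2.1, p.1.2, ⟨⟨h2, h3⟩, ?_⟩, ?_⟩
      · rw [← h4]; rfl
      · have : p.1.2 + p.2.2 = g.2 := by rw [← h4]; rfl
        ext <;> simp [← this]
    · rintro ⟨a, b, c, ⟨⟨h2, h3⟩, h4⟩, h5⟩
      subst h5
      refine ⟨⟨h2, h3⟩, ?_⟩
      ext <;> simp [h4]
  rw [r, h1, Finset.card_map, Finset.card_product, N]
  simp

lemma N_zero : N 0 = 1 := by decide
lemma N_one : N 1 = 2 := by decide
lemma N_two : N 2 = 1 := by decide

lemma N_ge (c : ZMod 3) : 1 ≤ N c := by
  fin_cases c <;> decide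

lemma N_gt : ∀ c : ZMod 3, (1 < N c ↔ c = 1) := by decide

lemma pop_low {i : ℕ} (hi : i ≤ m) : popular i (S m) (S m) = Set.univ := by
  ext g
  simp only [popular, Set.mem_ofPred_eq, Set.mem_univ, iff_true, r_eq]
  have := N_ge g.1
  nlinarith

lemma pop_top (hm : 1 ≤ m) : popular (m + 1) (S m) (S m) = {g | g.1 = 1} := by
  ext g
  simp only [popular, Set.mem_ofPred_eq, r_eq, ← N_gt]
  constructor
  · intro h
    by_contra h2
    have h3 : N g.1 ≤ 1 := by omega
    nlinarith
  · intro h
    nlinarith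

lemma card_top : ({g | g.1 = 1} : Set (ZMod 3 × ZMod m)).ncard = m := by
  have h1 : ({g | g.1 = 1} : Set (ZMod 3 × ZMod m)) =
      (fun x : ZMod m => ((1 : ZMod 3), x)) '' Set.univ := by
    ext g
    simp only [Set.mem_ofPred_eq, Set.image_univ, Set.mem_range]
    constructor
    · intro h
      exact ⟨g.2, by ext <;> simp [h]⟩
    · rintro ⟨x, rfl⟩
      rfl
  rw [h1, Set.ncard_image_of_injective _ (fun a b hab => by simpa using hab), Set.ncard_univ,
    Nat.card_eq_fintype_card, ZMod.card]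

omit [NeZero m] in
lemma stab_top : stab ({g | g.1 = 1} : Set (ZMod 3 × ZMod m)) = {g | g.1 = 0} := by
  ext e
  simp only [stab, Set.mem_ofPred_eq]
  constructor
  · intro h
    have h1 : e + ((1 : ZMod 3), (0 : ZMod m)) ∈ ({g | g.1 = 1} : Set (ZMod 3 × ZMod m)) := by
      rw [← h]
      exact ⟨_, rfl, rfl⟩
    have h2 : e.1 + 1 = 1 := h1
    simpa using h2
  · intro h
    ext g
    simp only [Set.mem_image, Set.mem_ofPred_eq]
    constructor
    · rintro ⟨x, hx, rfl⟩
      simp [h, hx]
    · intro hg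
      exact ⟨g - e, by simp [h, hg], add_sub_cancel _ _⟩

lemma card_stab : ({g | g.1 = 0} : Set (ZMod 3 × ZMod m)).ncard = m := by
  have h1 : ({g | g.1 = 0} : Set (ZMod 3 × ZMod m)) =
      (fun x : ZMod m => ((0 : ZMod 3), x)) '' Set.univ := by
    ext g
    simp only [Set.mem_ofPred_eq, Set.image_univ, Set.mem_range]
    constructor
    · intro h
      exact ⟨g.2, by ext <;> simp [h]⟩
    · rintro ⟨x, rfl⟩
      rfl
  rw [h1, Set.ncard_image_of_injective _ (fun a b hab => by simpa using hab), Set.ncard_univ,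
    Nat.card_eq_fintype_card, ZMod.card]

lemma card_S : (S m).card = 2 * m := by
  rw [S, Finset.card_product, Finset.card_univ, ZMod.card]
  rfl

end

/-- **The assertion fails for every `t ≥ 3`.** -/
theorem result : ∀ t : ℕ, 3 ≤ t → ¬ Holds t := by
  intro t ht hH
  obtain ⟨m, rfl⟩ : ∃ m, t = m + 1 := ⟨t - 1, by omega⟩
  have hm : 2 ≤ m := by omega
  have : NeZero m := ⟨by omega⟩
  have hsum : (∑ i ∈ Finset.Icc 1 (m + 1), ((popular i (S m) (S m)).ncard : ℤ)) =
      3 * m ^ 2 + m := by
    rw [Finset.sum_Icc_succ_top (by omega), pop_top m (by omega), card_top]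
    have h1 : ∀ i ∈ Finset.Icc 1 m, ((popular i (S m) (S m)).ncard : ℤ) = 3 * m := by
      intro i hi
      rw [pop_low m (Finset.mem_Icc.1 hi).2, Set.ncard_univ, Nat.card_eq_fintype_card,
        Fintype.card_prod, ZMod.card, ZMod.card]
      push_cast
      ring
    rw [Finset.sum_congr rfl h1, Finset.sum_const, Nat.card_Icc]
    simp
    ring
  have hst : stab (popular (m + 1) (S m) (S m)) = {g | g.1 = 0} := by
    rw [pop_top m (by omega), stab_top]
  have h1 := hH (ZMod 3 × ZMod m) (S m) (S m) (by rw [card_S]; omega) (by rw [card_S]; omega)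
    (by
      rw [hsum, card_S]
      push_cast
      have : (2 : ℤ) ≤ m := by exact_mod_cast hm
      nlinarith) 1 1 (by rw [hst, card_stab]; omega) le_rfl (by rw [hst, card_stab]; omega)
  obtain ⟨A', hA', B', hB', hc, h2, -, h4, -⟩ := h1.1
  have hA : A' = S m := by
    refine Finset.Subset.antisymm hA' ?_
    rw [← Finset.sdiff_eq_empty_iff_subset, ← Finset.card_eq_zero]
    omega
  have hB : B' = S m := by
    refine Finset.Subset.antisymm hB' ?_
    rw [← Finset.sdiff_eq_empty_iff_subset, ← Finset.card_eq_zero]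
    omega
  subst hA hB
  rw [h2, pop_low m (by omega), hst] at h4
  have h5 : ((1 : ZMod 3), (0 : ZMod m)) ∈ stab (Set.univ : Set (ZMod 3 × ZMod m)) := by
    simp only [stab, Set.mem_ofPred_eq, Set.image_univ, Set.range_eq_univ]
    intro g
    exact ⟨g - ((1 : ZMod 3), (0 : ZMod m)), add_sub_cancel _ _⟩
  rw [h4] at h5
  exact absurd h5 (by simp)

end Pool.Agent.Results.MP_cd64ef_nt.StabilizerFails
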